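import Mathlib
import Pool.Agent.X26.MC.Chen

/-!
# Both shapes of prime quadruples, with almost primes: the same patterns for both shapes and for several windows

`(0, 2, 6, 8)` and `(0, 4, 6, 10)` are the two shapes of the problem. We count the primes `p` for which one chosen
member `p + h` of the quadruple is a product of at most two primes and the two others are almost primes. For every
`M`-tuple of such shapes and members `h` and of windows of length `X ≥ θ x` in `[1, x]`, a positive proportion of the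
vectors `d ∈ [1, D] ^ m`, `D` between a power of `log x` and `X`, serves for ALL of them, and for ALL
`F ⊆ {0, …, k - 1} ^ m` containing `0`, at once: the number of the `p` for which all the `p + ∑ f_j d_j`, `f ∈ F`, are
such primes of the window has the order of magnitude which the Hardy-Littlewood conjecture predicts for the `4 |F|` forms
`p + t + ∑ f_j d_j`.
-/

set_option autoImplicit false

namespace Pool.Agent.Results.MP_092512_nt.CommonPatterns

open Finset

/-- The number of the residue classes modulo `q` occupied by `T`. -/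
def nu (T : Finset ℤ) (q : ℕ) : ℕ := (T.image (fun t : ℤ => t % q)).card

/-- The local factor `(1 - ν(q) / q) (1 - 1 / q) ^ (-|T|)`. -/
noncomputable def loc (T : Finset ℤ) (q : ℕ) : ℝ := (1 - (nu T q : ℝ) / q) / (1 - 1 / (q : ℝ)) ^ T.card

/-- The singular series, the product of the local factors over all primes. -/
noncomputable def Sing (T : Finset ℤ) : ℝ := ∏' q : Nat.Primes, loc T q

/-- `m ≠ 0` is up to the sign a product of at most `j` primes, all of them larger than `w`. -/
def Almost (j : ℕ) (w : ℝ) (m : ℤ) : Prop :=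
  m ≠ 0 ∧ m.natAbs.primeFactorsList.length ≤ j ∧ ∀ q : ℕ, q.Prime → (q : ℤ) ∣ m → w < q

open Classical in
/-- The primes `p` in `(y, y + X]` for which `p + h` is a product of at most two primes, both larger than
`x ^ (1/9)`, and all `p + t`, `t ∈ T`, are products of at most `j` primes larger than `x ^ (1/j)`. -/
noncomputable def Chen (j x : ℕ) (T : Finset ℤ) (h : ℤ) (y X : ℕ) : Finset ℕ :=
  (Ioc y (y + X)).filter (fun n : ℕ => n.Prime ∧ Almost 2 ((x : ℝ) ^ (1 / 9 : ℝ)) (n + h) ∧
    ∀ t ∈ T, Almost j ((x : ℝ) ^ (1 / (j : ℝ))) (n + t))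

/-- The set of the integers `t + ∑ f_i d_i`, `t ∈ T`, `f ∈ F`. -/
def sumSet {m : ℕ} (T : Finset ℤ) (d : Fin m → ℕ) (F : Finset (Fin m → ℕ)) : Finset ℤ :=
  (T ×ˢ F).image (fun p : ℤ × (Fin m → ℕ) => p.1 + ((∑ i, p.2 i * d i : ℕ) : ℤ))

/-- the first shape `(p, p + 2, p + 6, p + 8)` -/
def ShapeA : Finset ℤ := {0, 2, 6, 8}

/-- the second shape `(p, p + 4, p + 6, p + 10)` -/
def ShapeB : Finset ℤ := {0, 4, 6, 10}

theorem adm_of (T : Finset ℤ) (hT : T.card = 4) (h2 : nu T 2 < 2) (h3 : nu T 3 < 3) :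
    ∀ q : ℕ, q.Prime → nu T q < q := by
  intro q hq
  by_cases h5 : 5 ≤ q
  · have : nu T q ≤ T.card := card_image_le
    omega
  · have := hq.two_le
    interval_cases q
    · exact h2
    · exact h3
    · exact absurd hq (by decide)

/-- For every `M` there is `j ≥ 1` such that for all `m` and `k` there are `c > 0` and `B` with: for every `θ > 0`, all
large `x`, all `M`-tuples of shapes `T_i ∈ {(0, 2, 6, 8), (0, 4, 6, 10)}`, members `0 ≠ h_i ∈ T_i` and windows
`(y_i, y_i + X] ⊆ [1, x]` with `X ≥ θ x`, and every `D` from `log ^ B x` to `X`, at least `c D ^ m` vectors `d` with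
entries in `[1, D]` have the following property. For all sets `F` of vectors with entries in `{0, ..., k - 1}` which
contain the vector `0` and for all `i`, the set `T' = T_i + {∑ f_j d_j : f ∈ F}` consists of `4 |F|` integers and misses
a class modulo every prime, and for at least `c 𝔖(T') X / log ^ (4 |F|) x` elements `p` of `Chen j x T_i h_i y_i X` all
the `p + ∑ f_j d_j`, `f ∈ F`, are elements of `Chen j x T_i h_i y_i X`. -/
theorem result (M : ℕ) : ∃ j : ℕ, 1 ≤ j ∧ ∀ m k : ℕ, ∃ c : ℝ, 0 < c ∧ ∃ B : ℕ, ∀ θ : ℝ, 0 < θ →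
    ∃ x₀ : ℕ, ∀ x : ℕ, x₀ ≤ x → ∀ (T : Fin M → Finset ℤ) (h : Fin M → ℤ), (∀ i, T i = ShapeA ∨ T i = ShapeB) →
      (∀ i, h i ∈ T i ∧ h i ≠ 0) → ∀ (y : Fin M → ℕ) (X D : ℕ), (∀ i, y i + X ≤ x) → θ * x ≤ X → X ≤ x →
      Real.log x ^ B ≤ D → D ≤ X →
      ∃ G : Finset (Fin m → ℕ), (∀ d ∈ G, ∀ i, 1 ≤ d i ∧ d i ≤ D) ∧ c * (D : ℝ) ^ m ≤ G.card ∧
        ∀ d ∈ G, ∀ F : Finset (Fin m → ℕ), (∀ f ∈ F, ∀ i, f i < k) → (fun _ => 0) ∈ F → ∀ i,
          (sumSet (T i) d F).card = 4 * F.card ∧ (∀ q : ℕ, q.Prime → nu (sumSet (T i) d F) q < q) ∧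
          c * (Sing (sumSet (T i) d F) * (X / Real.log x ^ (4 * F.card))) ≤
            (((Chen j x (T i) (h i) (y i) X).filter
              (fun n => ∀ f ∈ F, n + ∑ l, f l * d l ∈ Chen j x (T i) (h i) (y i) X)).card : ℝ) := by
  classical
  obtain ⟨J, hJ, h0⟩ := Pool.Agent.X26.MC.chenM M (fun _ => 4)
  refine ⟨J, hJ, fun m k => ?_⟩
  obtain ⟨c, hc, B, h1⟩ := h0 m k
  refine ⟨c, hc, B, fun θ hθ => ?_⟩
  obtain ⟨x₀, h2⟩ := h1 θ hθ
  refine ⟨max x₀ 10, fun x hx T h hT hh y X D hyX hθX hXx hD hDX => ?_⟩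
  have hx10 : 10 ≤ x := (le_max_right _ _).trans hx
  have hadm : ∀ i, Pool.Agent.Y843.AC.HL.Tup 4 x (T i) := by
    intro i
    have hc4 : (T i).card = 4 := by
      rcases hT i with h3 | h3 <;> rw [h3] <;> decide
    refine ⟨hc4, ?_, ?_⟩
    · show ∀ q : ℕ, q.Prime → nu (T i) q < q
      rcases hT i with h3 | h3 <;> rw [h3]
      · exact adm_of _ (by decide) (by decide) (by decide)
      · exact adm_of _ (by decide) (by decide) (by decide)
    · intro t ht
      rcases hT i with h3 | h3 <;> rw [h3] at ht <;> unfold ShapeA ShapeB at * <;>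
        simp only [mem_insert, mem_singleton] at ht <;> rcases ht with rfl | rfl | rfl | rfl <;> norm_num <;>
        exact_mod_cast (by omega)
  obtain ⟨G, g1, g2, g3⟩ := h2 x ((le_max_left _ _).trans hx) T hadm (fun i => by
      rcases hT i with h3 | h3 <;> rw [h3] <;> decide) h
    (fun i => (hh i).1) (fun i => (hh i).2) y X D hyX hXx hθX hD hDX
  refine ⟨G, ?_, g2, fun d hd F hF hF0 i => ?_⟩
  · intro d hd j
    have := g1 hd
    rw [Fintype.mem_piFinset] at this
    exact mem_Icc.1 (this j)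
  obtain ⟨k1, k2, k3⟩ := g3 d hd F hF hF0 i
  have e : Pool.Agent.Y843.AC.HL.gg (Pool.Agent.X26.GP.TF (T i) d F) x =
      Sing (sumSet (T i) d F) / Real.log x ^ (Pool.Agent.X26.GP.TF (T i) d F).card := rfl
  rw [e, k1] at k3
  refine ⟨k1, k2, ?_⟩
  have e2 : c * (Sing (sumSet (T i) d F) * (X / Real.log x ^ (4 * F.card))) =
      c * (X * (Sing (sumSet (T i) d F) / Real.log x ^ (4 * F.card))) := by ring
  rw [e2]
  exact k3

end Pool.Agent.Results.MP_092512_nt.CommonPatterns
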