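import Mathlib
import Pool.Agent.X26.TY.Typ

/-!
# Prime quadruples of both shapes: almost all of them are centres of the expected number of patterns

Let `T` be one of the shapes `(0, 2, 6, 8)`, `(0, 4, 6, 10)`, and let `S` be an ARBITRARY set of integers `n` in an arbitrary
interval of length `X ≥ x ^ θ` in `[1, x]` for which the `n + t`, `t ∈ T`, are primes (or have no prime factor
`≤ x ^ (1 / j)`). All but at most `ε X / log ^ 4 x` elements of `S` are the centres of at least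
`c D ^ m / (log x) ^ (4 ((2K + 1) ^ m - 1))` patterns in `S`: for so many vectors `d ∈ [1, D] ^ m` all the
`n + ∑ g_i d_i`, `|g_i| ≤ K`, belong to `S`. This is the order of magnitude of the number of the patterns which is
expected if `S` consists of all the prime quadruples of the shape; `D` is any number between a power of `log x` and `X`.
-/

set_option autoImplicit false

namespace Pool.Agent.Results.MP_092512_nt.TypicalQuadruples

open Finset

/-- the first shape `(n, n + 2, n + 6, n + 8)` -/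
def ShapeA : Finset ℤ := {0, 2, 6, 8}

/-- the second shape `(n, n + 4, n + 6, n + 10)` -/
def ShapeB : Finset ℤ := {0, 4, 6, 10}

/-- the `n + t`, `t ∈ T`, are all primes, or none of them has a prime factor `≤ x ^ (1 / j)` -/
def Quad (j x : ℕ) (T : Finset ℤ) (n : ℕ) : Prop := (∀ t ∈ T, ((n : ℤ) + t).natAbs.Prime) ∨
  ∀ q : ℕ, q.Prime → (q : ℝ) ≤ (x : ℝ) ^ (1 / (j : ℝ)) → ∀ t ∈ T, ¬ (q : ℤ) ∣ n + t

/-- `n` is the centre of the pattern in `A` given by `d`: all the `n + ∑ g_i d_i`, `|g_i| ≤ K`, belong to `A` -/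
def Centre {m : ℕ} (K : ℕ) (A : Finset ℕ) (n : ℕ) (d : Fin m → ℕ) : Prop :=
  ∀ g : Fin m → ℤ, (∀ i, |g i| ≤ K) → ∃ s ∈ A, (s : ℤ) = n + ∑ i, g i * (d i : ℤ)

open Classical in
/-- the number of the vectors `d` with entries in `[1, D]` for which `n` is the centre of the pattern in `A` -/
noncomputable def patterns (m K D : ℕ) (A : Finset ℕ) (n : ℕ) : ℕ :=
  ((Fintype.piFinset (fun _ : Fin m => Icc 1 D)).filter (fun d => Centre K A n d)).card

theorem adm_of (T : Finset ℤ) (hT : T.card = 4) (h2 : Pool.Agent.Y843.AC.HL.nu T 2 < 2)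
    (h3 : Pool.Agent.Y843.AC.HL.nu T 3 < 3) : Pool.Agent.Y843.AC.HL.Adm T := by
  intro q hq
  by_cases h5 : 5 ≤ q
  · have : Pool.Agent.Y843.AC.HL.nu T q ≤ T.card := card_image_le
    omega
  · have := hq.two_le
    interval_cases q
    · exact h2
    · exact h3
    · exact absurd hq (by decide)

theorem card_of {T : Finset ℤ} (hT : T = ShapeA ∨ T = ShapeB) : T.card = 4 := by
  rcases hT with h3 | h3 <;> rw [h3] <;> decide

theorem adm {T : Finset ℤ} (hT : T = ShapeA ∨ T = ShapeB) : Pool.Agent.Y843.AC.HL.Adm T := by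
  rcases hT with h3 | h3 <;> rw [h3]
  · exact adm_of _ (by decide) (by decide) (by decide)
  · exact adm_of _ (by decide) (by decide) (by decide)

theorem tup_of {x : ℕ} (hx : 10 ≤ x) {T : Finset ℤ} (hT : T = ShapeA ∨ T = ShapeB) :
    Pool.Agent.Y843.AC.HL.Tup 4 x T := by
  refine ⟨card_of hT, adm hT, ?_⟩
  intro t ht
  rcases hT with h3 | h3 <;> rw [h3] at ht <;>
    simp only [ShapeA, ShapeB, mem_insert, mem_singleton] at ht <;> rcases ht with rfl | rfl | rfl | rfl <;> norm_num <;>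
    exact_mod_cast (by omega)

/-- the singular series of both shapes is between two positive constants -/
theorem sing_bounds : ∃ s₁ s₂ : ℝ, 0 < s₁ ∧ 0 < s₂ ∧ ∀ T : Finset ℤ, T = ShapeA ∨ T = ShapeB →
    s₁ ≤ Pool.Agent.Y843.AC.HL.Sing T ∧ Pool.Agent.Y843.AC.HL.Sing T ≤ s₂ := by
  obtain ⟨c, hc, h⟩ := Pool.Agent.Y843.AC.HL.Sing_low 4
  refine ⟨c, max (max (Pool.Agent.Y843.AC.HL.Sing ShapeA) (Pool.Agent.Y843.AC.HL.Sing ShapeB)) 1, hc,
    lt_of_lt_of_le one_pos (le_max_right _ _), fun T hT => ⟨h T (card_of hT) (adm hT), ?_⟩⟩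
  rcases hT with h3 | h3 <;> rw [h3]
  · exact (le_max_left _ _).trans (le_max_left _ _)
  · exact (le_max_right _ _).trans (le_max_left _ _)

open Classical in
/-- For all `m`, `K`, `j ≥ 1`, `θ > 0`, `ε > 0` there are `c > 0` and `B` such that for all large `x`, both shapes `T`, all
intervals `(y, y + X]` with `x ^ θ ≤ X ≤ x`, all `D` with `log ^ B x ≤ D ≤ X` and ALL sets `A` of integers `n` in the
interval for which all the `n + t`, `t ∈ T`, are primes or none of them has a prime factor `≤ x ^ (1 / j)`: the number of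
the `n ∈ A` which are the centres of fewer than `c D ^ m / (log x) ^ (4 ((2 K + 1) ^ m - 1))` patterns in `A` is at most
`ε X / log ^ 4 x`. -/
theorem result (m K j : ℕ) (hj : 1 ≤ j) (θ ε : ℝ) (hθ : 0 < θ) (hε : 0 < ε) : ∃ c : ℝ, 0 < c ∧ ∃ B x₀ : ℕ,
    ∀ x : ℕ, x₀ ≤ x → ∀ T : Finset ℤ, (T = ShapeA ∨ T = ShapeB) → ∀ y X D : ℕ, (x : ℝ) ^ θ ≤ X → X ≤ x →
    Real.log x ^ B ≤ D → D ≤ X → ∀ A : Finset ℕ, (∀ n ∈ A, y < n ∧ n ≤ y + X ∧ Quad j x T n) →
    ((A.filter (fun n => (patterns m K D A n : ℝ) <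
      c * ((D : ℝ) ^ m / Real.log x ^ (4 * ((2 * K + 1) ^ m - 1))))).card : ℝ) ≤ ε * (X / Real.log x ^ 4) := by
  obtain ⟨s₁, s₂, hs₁, hs₂, hs⟩ := sing_bounds
  obtain ⟨c, hc, B, x₀, h⟩ := Pool.Agent.X26.TY.typ m K 4 j hj hθ (ε := ε / s₂) (by positivity)
  obtain ⟨e, he⟩ : ∃ e : ℕ, e = (2 * K + 1) ^ m - 1 := ⟨_, rfl⟩
  rw [← he] at h ⊢
  refine ⟨c * s₁ ^ e, by positivity, B, max x₀ 10, fun x hx T hT y X D hX hXx hBD hDX A hA => ?_⟩
  have hx10 : 10 ≤ x := (le_max_right _ _).trans hx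
  have hl : 0 < Real.log x := Real.log_pos (by exact_mod_cast (show 1 < x by omega))
  have h1 := h x ((le_max_left _ _).trans hx) T (tup_of hx10 hT) y X D hX hXx hBD hDX A (fun n hn => by
    rw [mem_Ioc]
    exact ⟨(hA n hn).1, (hA n hn).2.1⟩) (fun n hn => (hA n hn).2.2)
  have eg : Pool.Agent.Y843.AC.HL.gg T x = Pool.Agent.Y843.AC.HL.Sing T / Real.log x ^ 4 := by
    have : Pool.Agent.Y843.AC.HL.gg T x = Pool.Agent.Y843.AC.HL.Sing T / Real.log x ^ T.card := rfl
    rw [this, card_of hT]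
  obtain ⟨q1, q2⟩ := hs T hT
  calc ((A.filter (fun n => (patterns m K D A n : ℝ) <
        c * s₁ ^ e * ((D : ℝ) ^ m / Real.log x ^ (4 * e)))).card : ℝ)
      ≤ ((A.filter (fun n => (((Fintype.piFinset (fun _ : Fin m => Icc 1 D)).filter
          (fun d => Pool.Agent.X26.TY.Cen K A n d)).card : ℝ) <
          c * ((D : ℝ) ^ m * Pool.Agent.Y843.AC.HL.gg T x ^ e))).card : ℝ) := by
        apply Nat.cast_le.2
        apply card_le_card
        intro n hn
        rw [mem_filter] at hn ⊢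
        refine ⟨hn.1, lt_of_lt_of_le hn.2 ?_⟩
        rw [eg, div_pow, ← pow_mul]
        have h5 : s₁ ^ e ≤ Pool.Agent.Y843.AC.HL.Sing T ^ e := pow_le_pow_left₀ hs₁.le q1 e
        have e1 : c * s₁ ^ e * ((D : ℝ) ^ m / Real.log x ^ (4 * e)) =
            c * ((D : ℝ) ^ m * (s₁ ^ e / Real.log x ^ (4 * e))) := by ring
        rw [e1]
        apply mul_le_mul_of_nonneg_left _ hc.le
        apply mul_le_mul_of_nonneg_left _ (by positivity)
        exact div_le_div_of_nonneg_right h5 (by positivity)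
    _ ≤ ε / s₂ * (X * Pool.Agent.Y843.AC.HL.gg T x) := h1
    _ ≤ ε / s₂ * (X * (s₂ / Real.log x ^ 4)) := by
        rw [eg]
        apply mul_le_mul_of_nonneg_left _ (by positivity)
        apply mul_le_mul_of_nonneg_left _ (Nat.cast_nonneg _)
        exact div_le_div_of_nonneg_right q2 (by positivity)
    _ = ε * (X / Real.log x ^ 4) := by
        field_simp

end Pool.Agent.Results.MP_092512_nt.TypicalQuadruples
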